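import Mathlib
import Pool.Agent.H.MP_afeaf0_al.Model

namespace Pool.Agent.Results.MP_afeaf0_al.Yes

/-- A chain of primes is saturated if no prime lies strictly between two consecutive members. -/
def Saturated {B : Type} [CommRing B] (s : LTSeries (PrimeSpectrum B)) : Prop :=
  ∀ i : Fin s.length, s i.castSucc ⋖ s i.succ

/-- Catenary ring (Stacks, Tag 00NI): for all primes `P ⊆ Q` the chains of primes from `P` to `Q`
have bounded length, and all saturated chains from `P` to `Q` have the same length. -/
def IsCatenary (B : Type) [CommRing B] : Prop :=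
  ∀ P Q : PrimeSpectrum B, P ≤ Q →
    (∃ N : ℕ, ∀ s : LTSeries (PrimeSpectrum B), s.head = P → s.last = Q → s.length ≤ N) ∧
    ∀ s t : LTSeries (PrimeSpectrum B), Saturated s → Saturated t →
      s.head = P → s.last = Q → t.head = P → t.last = Q → s.length = t.length

/-- Universally catenary: every finitely generated algebra is catenary. -/
def IsUniversallyCatenary (R : Type) [CommRing R] : Prop :=
  ∀ (B : Type) [CommRing B] [Algebra R B], Algebra.FiniteType R B → IsCatenary B

/-- An `R`-algebra `S` is solid if there is a nonzero `R`-linear map `S → R`. -/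
def IsSolid (R S : Type) [CommRing R] [CommRing S] [Algebra R S] : Prop :=
  ∃ f : S →ₗ[R] R, f ≠ 0

/-- The integral closure of `R` in the field `Ω` is a solid `R`-algebra. -/
def ClosureSolid (R Ω : Type) [CommRing R] [Field Ω] [Algebra R Ω] : Prop :=
  IsSolid R (integralClosure R Ω)

/-- The absolute integral closure of the domain `R` is a solid `R`-algebra. -/
def PlusSolid (R : Type) [CommRing R] [IsDomain R] : Prop :=
  ClosureSolid R (AlgebraicClosure (FractionRing R))

theorem result (p : ℕ) (hp : p.Prime) :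
    ∃ (R : Type) (_ : CommRing R) (_ : IsDomain R),
      IsNoetherianRing R ∧ CharP R p ∧ ¬ IsUniversallyCatenary R ∧ PlusSolid R := by
  classical
  have : Fact p.Prime := ⟨hp⟩
  obtain ⟨R, _, _, h1, h2, ⟨O, P, Q, P1, P2, a1, a2, a3, a4, a5⟩, h4⟩ :=
    Pool.Agent.H.MP_afeaf0_al.model p
  refine ⟨R, inferInstance, inferInstance, h1, h2, fun h => ?_, h4⟩
  obtain ⟨⟨N, hN⟩, hsat⟩ := h (Polynomial R) inferInstance O Q (a1.le.trans a2.le)
  let s : LTSeries (PrimeSpectrum (Polynomial R)) :=
    ⟨2, ![O, P, Q], fun i => by fin_cases i; exacts [a1.lt, a2.lt]⟩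
  let t : LTSeries (PrimeSpectrum (Polynomial R)) :=
    ⟨3, ![O, P1, P2, Q], fun i => by fin_cases i; exacts [a3, a4, a5]⟩
  have hs : Saturated s := fun i => by fin_cases i; exacts [a1, a2]
  let A : ℕ → Prop := fun n => ∃ u : LTSeries (PrimeSpectrum (Polynomial R)),
    u.head = O ∧ u.last = Q ∧ u.length = n
  have h3 : A 3 := ⟨t, rfl, rfl, rfl⟩
  have h3N : 3 ≤ N := hN t rfl rfl
  obtain ⟨u, hu1, hu2, hu3⟩ : A (Nat.findGreatest A N) := Nat.findGreatest_spec h3N h3
  have hge : 3 ≤ Nat.findGreatest A N := Nat.le_findGreatest h3N h3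
  have hu : Saturated u := by
    intro i
    refine ⟨u.step i, fun c h5 h6 => ?_⟩
    let v := u.insertNth i c h5 h6
    have hv1 : v.head = O := by
      rw [← hu1]
      show Fin.insertNth (α := fun _ => PrimeSpectrum (Polynomial R)) (Fin.castSucc i.succ) c u 0
        = u 0
      have : (0 : Fin (u.length + 1 + 1)) = (Fin.castSucc i.succ).succAbove 0 := by
        rw [Fin.succAbove_of_castSucc_lt]
        · rfl
        · exact Fin.castSucc_lt_castSucc_iff.mpr (Fin.succ_pos i)
      rw [this, Fin.insertNth_apply_succAbove]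
    have hv2 : v.last = Q := by
      rw [← hu2]
      show Fin.insertNth (α := fun _ => PrimeSpectrum (Polynomial R)) (Fin.castSucc i.succ) c u
        (Fin.last _) = u (Fin.last _)
      have : Fin.last (u.length + 1) = (Fin.castSucc i.succ).succAbove (Fin.last _) := by
        rw [Fin.succAbove_of_le_castSucc]
        · rfl
        · exact Fin.castSucc_le_castSucc_iff.mpr (Fin.le_last _)
      rw [this, Fin.insertNth_apply_succAbove]
    have hv3 : v.length = u.length + 1 := rfl
    have h7 := hN v hv1 hv2
    have h8 : v.length ≤ Nat.findGreatest A N := Nat.le_findGreatest h7 ⟨v, hv1, hv2, rfl⟩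
    omega
  have := hsat s u hs hu rfl rfl hu1 hu2
  have h9 : s.length = 2 := rfl
  omega

end Pool.Agent.Results.MP_afeaf0_al.Yes
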